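import Pool.Agent.Work.MP_2738db_nt_S.Interface

set_option autoImplicit false

namespace Pool.Agent.Work.MP_2738db_nt_S.helper87

open UniqueFactorizationMonoid

theorem nf_prod (R : Type) [CommRing R] [IsDedekindDomain R] (ι : Type) [DecidableEq ι]
    (s : Finset ι) (I : ι → Ideal R) (k : ι → ℕ) (hI : ∀ i, I i ≠ ⊥) :
    normalizedFactors (∏ i ∈ s, I i ^ k i) = ∑ i ∈ s, k i • normalizedFactors (I i) := by
  classical
  induction s using Finset.induction_on with
  | empty => rw [Finset.prod_empty, Finset.sum_empty, normalizedFactors_one]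
  | insert a s ha ih =>
    rw [Finset.prod_insert ha, Finset.sum_insert ha, normalizedFactors_mul, normalizedFactors_pow,
      ih]
    · exact pow_ne_zero _ (hI a)
    · exact Finset.prod_ne_zero_iff.2 (fun i _ => pow_ne_zero _ (hI i))

theorem stmt_IDLS : Stmt_IdlS := by
  intro R _ _ ι _ α β lam c k hc hlam hab hmem
  classical
  have hprod : α * β ≠ 0 := by
    intro h
    rw [h] at hab
    have h1 : ∏ i, c i ^ k i ∈ Ideal.span {∏ i, c i ^ k i} := Ideal.mem_span_singleton_self _
    rw [← hab] at h1
    have h2 : ∏ i, c i ^ k i = 0 := by simpa using h1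
    exact Finset.prod_ne_zero_iff.2 (fun i _ => pow_ne_zero _ (hc i)) h2
  have hα : α ≠ 0 := left_ne_zero_of_mul hprod
  have hβ : β ≠ 0 := right_ne_zero_of_mul hprod
  have bot_ne : ∀ x : R, x ≠ 0 → Ideal.span {x} ≠ (⊥ : Ideal R) := fun x hx => by
    simpa [Ideal.span_singleton_eq_bot] using hx
  set A := normalizedFactors (Ideal.span {α}) with hA
  set B := normalizedFactors (Ideal.span {β}) with hB
  set C : ι → Multiset (Ideal R) := fun i => normalizedFactors (Ideal.span {c i}) with hC
  set L := normalizedFactors (Ideal.span {lam}) with hL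
  have eA : A.prod = Ideal.span {α} := Ideal.prod_normalizedFactors_eq_self (bot_ne α hα)
  have eB : B.prod = Ideal.span {β} := Ideal.prod_normalizedFactors_eq_self (bot_ne β hβ)
  have eC : ∀ i, (C i).prod = Ideal.span {c i} := fun i =>
    Ideal.prod_normalizedFactors_eq_self (bot_ne (c i) (hc i))
  have eL : L.prod = Ideal.span {lam} := Ideal.prod_normalizedFactors_eq_self (bot_ne lam hlam)
  have hABC : A + B = ∑ i, k i • C i := by
    rw [hA, hB, ← normalizedFactors_mul (bot_ne α hα) (bot_ne β hβ),
      Ideal.span_singleton_mul_span_singleton, hab, ← Ideal.prod_span_singleton]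
    have : ∀ i, Ideal.span {c i ^ k i} = Ideal.span {c i} ^ k i := fun i =>
      (Ideal.span_singleton_pow _ _).symm
    simp_rw [this]
    exact nf_prod R ι Finset.univ (fun i => Ideal.span {c i}) k (fun i => bot_ne (c i) (hc i))
  have hinter : A ⊓ B ≤ L := by
    have h1 : Ideal.span {lam} ≤ Ideal.span {α} ⊔ Ideal.span {β} := by
      rw [Ideal.span_singleton_le_iff_mem, ← Ideal.span_insert]
      exact hmem
    have h2 : (Ideal.span {α} ⊔ Ideal.span {β} : Ideal R) ≠ ⊥ := by
      intro h
      rw [h] at h1
      exact bot_ne lam hlam (le_bot_iff.1 h1)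
    have h3 := Ideal.dvd_iff_le.2 h1
    have h4 := (dvd_iff_normalizedFactors_le_normalizedFactors h2 (bot_ne lam hlam)).1 h3
    have h5 : normalizedFactors (Ideal.span {α} ⊔ Ideal.span {β} : Ideal R) = A ∩ B := by
      rw [Ideal.sup_eq_prod_inf_factors (bot_ne α hα) (bot_ne β hβ),
        normalizedFactors_prod_inter_eq_inter]
    rw [h5] at h4
    exact h4
  have hcount : ∀ q, min (A.count q) (B.count q) ≤ L.count q := fun q => by
    have := Multiset.count_le_of_le q hinter
    simpa [Multiset.count_inter] using this
  have hcountk : ∀ q, A.count q + B.count q = ∑ i, k i * (C i).count q := fun q => by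
    have := congrArg (Multiset.count q) hABC
    simpa [Multiset.count_add, Multiset.count_nsmul, Multiset.count_sum'] using this
  let P : Ideal R → Prop := fun q => L.count q < A.count q
  let F : Multiset (Ideal R) := (L - B).filter P + (L + A).filter (fun q => ¬ P q)
  have hsum : L + A = ∑ i, k i • (C i).filter P + F := by
    ext q
    have h1 := hcount q
    have h2 := hcountk q
    simp only [F, Multiset.count_add, Multiset.count_nsmul, Multiset.count_filter,
      Multiset.count_sub, Multiset.count_sum']
    by_cases hp : P q
    · have hp' : L.count q < A.count q := hp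
      simp only [hp, if_true, not_true_eq_false, if_false]
      rcases Nat.le_total (A.count q) (B.count q) with h | h
      · rw [min_eq_left h] at h1; omega
      · rw [min_eq_right h] at h1; omega
    · simp only [hp, if_false, not_false_eq_true, if_true]
      simp
  have hF : F ≤ L + L := by
    rw [Multiset.le_iff_count]
    intro q
    simp only [F, Multiset.count_add, Multiset.count_filter, Multiset.count_sub]
    by_cases hp : P q
    · simp only [hp, if_true, not_true_eq_false, if_false]
      omega
    · have hp' : ¬ L.count q < A.count q := hp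
      simp only [hp, if_false, not_false_eq_true, if_true]
      omega
  refine ⟨fun i => ((C i).filter P).prod, F.prod, ?_, ?_, ?_⟩
  · rw [← Ideal.span_singleton_mul_span_singleton, ← eL, ← eA, ← Multiset.prod_add, hsum,
      Multiset.prod_add, Multiset.prod_sum]
    simp_rw [Multiset.prod_nsmul]
  · intro i
    rw [← eC i]
    exact Multiset.prod_dvd_prod_of_le (Multiset.filter_le _ _)
  · rw [← Ideal.span_singleton_pow, ← eL, pow_two, ← Multiset.prod_add]
    exact Multiset.prod_dvd_prod_of_le hF

end Pool.Agent.Work.MP_2738db_nt_S.helper87
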