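import Pool.Agent.Work.MP_2738db_nt_S.Interface
import Pool.Agent.Work.MP_2738db_nt_A_helper96.PIG

set_option autoImplicit false

namespace Pool.Agent.Work.MP_2738db_nt_S.helper87

open Finset NumberField
open Pool.Agent.Work.MP_2738db_nt_A (Stmt_Min Stmt_Cnt)
open Pool.Agent.Work.MP_2738db_nt_A.helper96 (log_absNorm_span card_places toNat_cast floor_close)

/-- one step of the construction -/
theorem pigs_step (hmin : Stmt_Min) (K : Type) [Field K] [NumberField K] (ι : Type) [Fintype ι]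
    (𝔠 : ι → Ideal (𝓞 K))
    (k : ι → ℕ) (T : ℕ) (y : InfinitePlace K → ℝ) (H : ℝ) (h𝔠 : ∀ i, 𝔠 i ≠ ⊥) (hT : 1 ≤ T)
    (hD : (Module.finrank ℚ K : ℝ) ≤ H) (hH : 2 ≤ H) (hdisc : Real.log |(discr K : ℝ)| ≤ H)
    (hι : (Fintype.card ι : ℝ) ≤ H)
    (hN : ∀ i, Real.log (Ideal.absNorm (𝔠 i)) ≤ H)
    (hy : ∑ v, (v.mult : ℝ) * y v = ∑ i, (k i : ℝ) * Real.log (Ideal.absNorm (𝔠 i))) (t : ℕ) :
    ∃ (η : 𝓞 K) (𝔟 : Ideal (𝓞 K)), η ≠ 0 ∧ 𝔟 ≠ ⊥ ∧
      Ideal.span {η} = (∏ i, 𝔠 i ^ (t * k i / T)) * 𝔟 ∧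
      (Ideal.absNorm 𝔟 : ℝ) ≤ Real.exp (2 * H ^ 3) ∧
      ∀ v : InfinitePlace K, |Real.log (v (η : K)) - t / T * y v| ≤ 3 * H ^ 2 := by
  classical
  set D : ℝ := (Module.finrank ℚ K : ℝ) with hDdef
  have hD1 : 1 ≤ D := by
    rw [hDdef]
    exact_mod_cast Module.finrank_pos
  have hsum : ∑ v : InfinitePlace K, (v.mult : ℝ) = D := by
    rw [hDdef, ← InfinitePlace.sum_mult_eq]
    push_cast
    rfl
  have hT0 : (0 : ℝ) < T := by exact_mod_cast hT
  set j : ι → ℕ := fun i => t * k i / T with hj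
  set f : ι → ℝ := fun i => (t : ℝ) * k i / T - j i with hf
  have hf0 : ∀ i, 0 ≤ f i := by
    intro i
    have := Nat.cast_div_le (α := ℝ) (m := t * k i) (n := T)
    simp only [hf, hj]
    push_cast at this
    linarith
  have hf1 : ∀ i, f i ≤ 1 := by
    intro i
    have h1 : t * k i < T * (j i + 1) := by
      simp only [hj]
      exact Nat.lt_mul_div_succ _ (by omega)
    have h2 : (t : ℝ) * k i < T * (j i + 1) := by exact_mod_cast h1
    have h3 : (t : ℝ) * k i / T < j i + 1 := by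
      rw [div_lt_iff₀ hT0]
      linarith
    simp only [hf]
    linarith
  set L : ι → ℝ := fun i => Real.log (Ideal.absNorm (𝔠 i)) with hL
  have hL0 : ∀ i, 0 ≤ L i := fun i => Real.log_natCast_nonneg _
  set FL : ℝ := ∑ i, f i * L i with hFL
  have hFL0 : 0 ≤ FL := Finset.sum_nonneg (fun i _ => mul_nonneg (hf0 i) (hL0 i))
  have hFL1 : FL ≤ H ^ 2 := by
    calc FL ≤ ∑ i : ι, H := by
          apply Finset.sum_le_sum
          intro i _
          have h1 : L i ≤ H := hN i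
          calc f i * L i ≤ 1 * L i := mul_le_mul_of_nonneg_right (hf1 i) (hL0 i)
            _ ≤ H := by linarith
      _ = (Fintype.card ι : ℝ) * H := by
          rw [Finset.sum_const, Finset.card_univ, nsmul_eq_mul]
      _ ≤ H * H := mul_le_mul_of_nonneg_right hι (by linarith)
      _ = H ^ 2 := by ring
  set I : Ideal (𝓞 K) := ∏ i, 𝔠 i ^ j i with hI
  have hIne : I ≠ ⊥ := by
    rw [hI]
    exact Finset.prod_ne_zero_iff.2 (fun i _ => pow_ne_zero _ (h𝔠 i))
  have hNne : ∀ i, (Ideal.absNorm (𝔠 i) : ℝ) ≠ 0 := by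
    intro i
    have : Ideal.absNorm (𝔠 i) ≠ 0 := by
      rw [Ne, Ideal.absNorm_eq_zero_iff]; exact h𝔠 i
    exact_mod_cast this
  have hlogI : Real.log (Ideal.absNorm I) = ∑ i, (j i : ℝ) * L i := by
    rw [hI, map_prod, Nat.cast_prod, Real.log_prod]
    · apply Finset.sum_congr rfl
      intro i _
      rw [map_pow, Nat.cast_pow, Real.log_pow]
    · intro i _
      rw [map_pow, Nat.cast_pow]
      exact pow_ne_zero _ (hNne i)
  have hB : Real.log 4 + Real.log |(discr K : ℝ)| ≤ 2 * H := by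
    have h4 : Real.log 4 ≤ 2 := by
      have : (4 : ℝ) = 2 ^ 2 := by norm_num
      rw [this, Real.log_pow]
      have := Real.log_two_lt_d9
      push_cast
      linarith
    linarith
  have hkey : (t : ℝ) / T * ∑ i, (k i : ℝ) * L i - FL = ∑ i, (j i : ℝ) * L i := by
    rw [hFL, Finset.mul_sum, ← Finset.sum_sub_distrib]
    apply Finset.sum_congr rfl
    intro i _
    simp only [hf]
    field_simp
    ring
  obtain ⟨η, hηI, hη0, hηv⟩ := hmin K I (fun v => (t : ℝ) / T * y v - FL / D) (2 * H) hIne hB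
    (by
      rw [hlogI]
      have h5 : ∑ v : InfinitePlace K, (v.mult : ℝ) * ((t : ℝ) / T * y v - FL / D) =
          (t : ℝ) / T * ∑ v : InfinitePlace K, (v.mult : ℝ) * y v -
            (FL / D) * ∑ v : InfinitePlace K, (v.mult : ℝ) := by
        rw [Finset.mul_sum, Finset.mul_sum, ← Finset.sum_sub_distrib]
        exact Finset.sum_congr rfl fun v _ => by ring
      rw [h5, hy, hsum, ← hkey, div_mul_cancel₀ _ (by linarith)])
  have hdvd : I ∣ Ideal.span {η} := by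
    rw [Ideal.dvd_span_singleton]
    exact hηI
  obtain ⟨𝔟, h𝔟⟩ := hdvd
  have hspan0 : Ideal.span {η} ≠ ⊥ := by simpa using hη0
  have h𝔟0 : 𝔟 ≠ ⊥ := by
    rintro rfl
    apply hspan0
    rw [h𝔟]
    simp
  have hηv' : ∀ v : InfinitePlace K, |Real.log (v (η : K)) - ((t : ℝ) / T * y v - FL / D)|
      ≤ 2 * H ^ 2 := by
    intro v
    refine (hηv v).trans ?_
    nlinarith
  refine ⟨η, 𝔟, hη0, h𝔟0, h𝔟, ?_, ?_⟩
  · have hbpos : (0 : ℝ) < Ideal.absNorm 𝔟 := by
      have : Ideal.absNorm 𝔟 ≠ 0 := by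
        rw [Ne, Ideal.absNorm_eq_zero_iff]; exact h𝔟0
      positivity
    have hIpos : (0 : ℝ) < Ideal.absNorm I := by
      have : Ideal.absNorm I ≠ 0 := by
        rw [Ne, Ideal.absNorm_eq_zero_iff]; exact hIne
      positivity
    have h6 : Real.log (Ideal.absNorm (Ideal.span {η})) =
        Real.log (Ideal.absNorm I) + Real.log (Ideal.absNorm 𝔟) := by
      rw [h𝔟, map_mul, Nat.cast_mul, Real.log_mul hIpos.ne' hbpos.ne']
    rw [log_absNorm_span K η hη0] at h6
    have h7 : ∑ v : InfinitePlace K, (v.mult : ℝ) * Real.log (v (η : K)) ≤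
        ∑ v : InfinitePlace K, (v.mult : ℝ) * (((t : ℝ) / T * y v - FL / D) + 2 * H ^ 2) := by
      refine Finset.sum_le_sum fun v _ => ?_
      refine mul_le_mul_of_nonneg_left ?_ (Nat.cast_nonneg _)
      have := (abs_le.1 (hηv' v)).2
      linarith
    have h8 : ∑ v : InfinitePlace K, (v.mult : ℝ) * (((t : ℝ) / T * y v - FL / D) + 2 * H ^ 2) =
        (t : ℝ) / T * ∑ v : InfinitePlace K, (v.mult : ℝ) * y v -
          (FL / D) * ∑ v : InfinitePlace K, (v.mult : ℝ) +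
          (2 * H ^ 2) * ∑ v : InfinitePlace K, (v.mult : ℝ) := by
      rw [Finset.mul_sum, Finset.mul_sum, Finset.mul_sum, ← Finset.sum_sub_distrib,
        ← Finset.sum_add_distrib]
      exact Finset.sum_congr rfl fun v _ => by ring
    rw [h8, hy, hsum, div_mul_cancel₀ _ (by linarith)] at h7
    have h10 : Real.log (Ideal.absNorm 𝔟) ≤ 2 * H ^ 3 := by
      have h11 : 2 * H ^ 2 * D ≤ 2 * H ^ 3 := by nlinarith [sq_nonneg H]
      rw [hlogI] at h6
      linarith
    rwa [← Real.log_le_iff_le_exp hbpos]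
  · intro v
    have h12 := abs_le.1 (hηv' v)
    have h13 : 0 ≤ FL / D := by positivity
    have h14 : FL / D ≤ H ^ 2 := by
      rw [div_le_iff₀ (by linarith)]
      nlinarith [sq_nonneg H]
    rw [abs_le]
    constructor <;> linarith [h12.1, h12.2]

/-- the final step: division of two elements in the same class -/
theorem pigs_div (K : Type) [Field K] [NumberField K] (ι : Type) [Fintype ι]
    (𝔠 : ι → Ideal (𝓞 K)) (𝔟 : Ideal (𝓞 K)) (j j' : ι → ℕ) (η η' : 𝓞 K)
    (hj : ∀ i, j i ≤ j' i) (hη : η ≠ 0) (hη' : η' ≠ 0)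
    (h1 : Ideal.span {η} = (∏ i, 𝔠 i ^ j i) * 𝔟)
    (h2 : Ideal.span {η'} = (∏ i, 𝔠 i ^ j' i) * 𝔟) :
    ∃ ξ : 𝓞 K, ξ ≠ 0 ∧ Ideal.span {ξ} = ∏ i, 𝔠 i ^ (j' i - j i) ∧ ∀ v : InfinitePlace K,
      Real.log (v (ξ : K)) = Real.log (v (η' : K)) - Real.log (v (η : K)) := by
  have h3 : Ideal.span {η'} = (∏ i, 𝔠 i ^ (j' i - j i)) * Ideal.span {η} := by
    rw [h1, h2, ← mul_assoc, ← Finset.prod_mul_distrib]
    congr 1
    apply Finset.prod_congr rfl
    intro i _
    rw [← pow_add, Nat.sub_add_cancel (hj i)]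
  have h4 : η ∣ η' := by
    rw [← Ideal.span_singleton_le_span_singleton, h3]
    exact (Ideal.mul_le_right : (∏ i, 𝔠 i ^ (j' i - j i)) * Ideal.span {η} ≤ Ideal.span {η})
  obtain ⟨ξ, hξ⟩ := h4
  have hξ0 : ξ ≠ 0 := by
    rintro rfl
    apply hη'
    rw [hξ, mul_zero]
  refine ⟨ξ, hξ0, ?_, ?_⟩
  · have h5 : Ideal.span {ξ} * Ideal.span {η} = (∏ i, 𝔠 i ^ (j' i - j i)) * Ideal.span {η} := by
      rw [← h3, hξ, Ideal.span_singleton_mul_span_singleton, mul_comm]
    have h6 : Ideal.span {η} ≠ (0 : Ideal (𝓞 K)) := by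
      rw [Ideal.zero_eq_bot]
      simpa using hη
    exact mul_right_cancel₀ h6 h5
  · intro v
    have h7 : (η' : K) = (η : K) * (ξ : K) := by
      rw [hξ]
      simp
    have h8 : (η : K) ≠ 0 := by simpa using hη
    have h9 : (ξ : K) ≠ 0 := by simpa using hξ0
    rw [h7, map_mul, Real.log_mul (by simpa using h8) (by simpa using h9)]
    ring

theorem pigs_card (n1 p D q : ℕ) (r w : ℝ) (δ H : ℝ) (hδ : 0 < δ) (hδ1 : δ ≤ 1) (hH : 2 ≤ H)
    (hD : (D : ℝ) ≤ H) (hq : (q : ℝ) ≤ H) (hp : p ≤ D)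
    (hn1 : (n1 : ℝ) ≤ Real.exp (2 * H ^ 3) ^ (D ^ 2 + 1))
    (hr0 : 0 ≤ r) (hr : r ≤ 2 / δ) (hw0 : 0 ≤ w) (hw : w ≤ 8 * H ^ 2 / δ) :
    (n1 : ℝ) * (r ^ q * w ^ p) ≤ Real.exp (4 * H ^ 6) * (1 / δ) ^ (2 * H) := by
  have hH6 : 1 ≤ H ^ 6 := one_le_pow₀ (by linarith)
  have hHH6 : H ≤ H ^ 6 := by
    calc H = H ^ 1 := by ring
      _ ≤ H ^ 6 := pow_le_pow_right₀ (by linarith) (by norm_num)
  have h1 : (n1 : ℝ) ≤ Real.exp (2 * H ^ 6) := by
    refine hn1.trans ?_
    rw [← Real.exp_nat_mul]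
    apply Real.exp_le_exp.2
    push_cast
    have h2 : (D : ℝ) ^ 2 ≤ H ^ 2 := pow_le_pow_left₀ (Nat.cast_nonneg _) hD 2
    have h3 : (D : ℝ) ^ 2 + 1 ≤ H ^ 3 := by nlinarith [sq_nonneg (H - 2)]
    have h4 : 0 ≤ H ^ 3 := by positivity
    calc ((D : ℝ) ^ 2 + 1) * (2 * H ^ 3) ≤ H ^ 3 * (2 * H ^ 3) :=
          mul_le_mul_of_nonneg_right h3 (by positivity)
      _ = 2 * H ^ 6 := by ring
  have hd1 : 1 ≤ 1 / δ := by rwa [le_div_iff₀ hδ, one_mul]
  have hd0 : 0 < 1 / δ := by positivity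
  have h5 : w ^ p ≤ Real.exp (H ^ 6) * (1 / δ) ^ H := by
    have hb1 : 1 ≤ 8 * H ^ 2 / δ := by
      rw [le_div_iff₀ hδ]
      nlinarith
    calc w ^ p ≤ (8 * H ^ 2 / δ) ^ p := pow_le_pow_left₀ hw0 hw p
      _ = (8 * H ^ 2 / δ) ^ (p : ℝ) := (Real.rpow_natCast _ _).symm
      _ ≤ (8 * H ^ 2 / δ) ^ H := by
          apply Real.rpow_le_rpow_of_exponent_le hb1
          exact (by exact_mod_cast hp : (p : ℝ) ≤ D).trans hD
      _ = (8 * H ^ 2) ^ H * (1 / δ) ^ H := by
          rw [← Real.mul_rpow (by positivity) (by positivity)]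
          congr 1
          ring
      _ ≤ Real.exp (H ^ 6) * (1 / δ) ^ H := by
          refine mul_le_mul_of_nonneg_right ?_ (by positivity)
          calc (8 * H ^ 2) ^ H ≤ (Real.exp (8 * H ^ 2)) ^ H := by
                apply Real.rpow_le_rpow (by positivity) _ (by linarith)
                linarith [Real.add_one_le_exp (8 * H ^ 2)]
            _ = Real.exp (8 * H ^ 2 * H) := by rw [← Real.exp_mul]
            _ ≤ Real.exp (H ^ 6) := by
                apply Real.exp_le_exp.2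
                have h6 : 8 ≤ H ^ 3 := by nlinarith [sq_nonneg (H - 2)]
                calc 8 * H ^ 2 * H = 8 * H ^ 3 := by ring
                  _ ≤ H ^ 3 * H ^ 3 := mul_le_mul_of_nonneg_right h6 (by positivity)
                  _ = H ^ 6 := by ring
  have h7 : r ^ q ≤ Real.exp (H ^ 6) * (1 / δ) ^ H := by
    have hb1 : 1 ≤ 2 / δ := by
      rw [le_div_iff₀ hδ]
      linarith
    calc r ^ q ≤ (2 / δ) ^ q := pow_le_pow_left₀ hr0 hr q
      _ = (2 / δ) ^ (q : ℝ) := (Real.rpow_natCast _ _).symm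
      _ ≤ (2 / δ) ^ H := Real.rpow_le_rpow_of_exponent_le hb1 hq
      _ = 2 ^ H * (1 / δ) ^ H := by
          rw [← Real.mul_rpow (by positivity) (by positivity)]
          congr 1
          ring
      _ ≤ Real.exp (H ^ 6) * (1 / δ) ^ H := by
          refine mul_le_mul_of_nonneg_right ?_ (by positivity)
          calc (2 : ℝ) ^ H ≤ (Real.exp 1) ^ H := by
                apply Real.rpow_le_rpow (by positivity) _ (by linarith)
                linarith [Real.add_one_le_exp (1 : ℝ)]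
            _ = Real.exp (1 * H) := by rw [← Real.exp_mul]
            _ ≤ Real.exp (H ^ 6) := by
                apply Real.exp_le_exp.2
                linarith
  calc (n1 : ℝ) * (r ^ q * w ^ p) ≤ Real.exp (2 * H ^ 6) *
        ((Real.exp (H ^ 6) * (1 / δ) ^ H) * (Real.exp (H ^ 6) * (1 / δ) ^ H)) := by
          apply mul_le_mul h1 _ (by positivity) (by positivity)
          exact mul_le_mul h7 h5 (by positivity) (by positivity)
    _ = Real.exp (4 * H ^ 6) * ((1 / δ) ^ (H + H)) := by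
          rw [Real.rpow_add hd0]
          have : Real.exp (4 * H ^ 6) = Real.exp (2 * H ^ 6) * Real.exp (H ^ 6) * Real.exp (H ^ 6) := by
            rw [← Real.exp_add, ← Real.exp_add]
            congr 1
            ring
          rw [this]
          ring
    _ ≤ Real.exp (4 * H ^ 6) * (1 / δ) ^ (2 * H) := by
          refine mul_le_mul_of_nonneg_left ?_ (by positivity)
          exact Real.rpow_le_rpow_of_exponent_le hd1 (by linarith)

theorem stmt_PIGS (hmin : Stmt_Min) (hcnt : Stmt_Cnt) : Stmt_PigS := by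
  classical
  refine ⟨4, by norm_num, ?_⟩
  intro K _ _ ι _ 𝔠 k T y δ H h𝔠 hT hδ hδ1 hD hH hdisc hι hN hy
  choose η 𝔟 hη0 h𝔟0 hspan hnorm hv using
    pigs_step hmin K ι 𝔠 k T y H h𝔠 hT hD hH hdisc hι hN hy
  set m : ℕ := ⌊Real.exp (2 * H ^ 3)⌋₊ with hmdef
  have hm : 1 ≤ m := by
    rw [hmdef, Nat.one_le_floor_iff]
    exact Real.one_le_exp (by positivity)
  obtain ⟨hfin, hcard⟩ := hcnt K m hm
  set SI : Finset (Ideal (𝓞 K)) := hfin.toFinset with hSIdef
  have hSIc : SI.card ≤ m ^ (Module.finrank ℚ K ^ 2 + 1) := by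
    rwa [Set.ncard_eq_toFinset_card _ hfin] at hcard
  have hmR : (m : ℝ) ≤ Real.exp (2 * H ^ 3) := Nat.floor_le (by positivity)
  have hSIr : (SI.card : ℝ) ≤ Real.exp (2 * H ^ 3) ^ (Module.finrank ℚ K ^ 2 + 1) := by
    calc (SI.card : ℝ) ≤ ((m ^ (Module.finrank ℚ K ^ 2 + 1) : ℕ) : ℝ) := by exact_mod_cast hSIc
      _ = (m : ℝ) ^ (Module.finrank ℚ K ^ 2 + 1) := by push_cast; rfl
      _ ≤ _ := pow_le_pow_left₀ (Nat.cast_nonneg _) hmR _
  have hT0 : (0 : ℝ) < T := by exact_mod_cast hT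
  set fr : ℕ → ι → ℝ := fun t i => (t : ℝ) * k i / T - (t * k i / T : ℕ) with hfr
  have hfr0 : ∀ t i, 0 ≤ fr t i := by
    intro t i
    have := Nat.cast_div_le (α := ℝ) (m := t * k i) (n := T)
    simp only [hfr]
    push_cast at this
    linarith
  have hfr1 : ∀ t i, fr t i ≤ 1 := by
    intro t i
    have h1 : t * k i < T * (t * k i / T + 1) := Nat.lt_mul_div_succ _ (by omega)
    have h2 : (t : ℝ) * k i < T * ((t * k i / T : ℕ) + 1) := by exact_mod_cast h1
    have h3 : (t : ℝ) * k i / T < (t * k i / T : ℕ) + 1 := by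
      rw [div_lt_iff₀ hT0]
      linarith
    simp only [hfr]
    linarith
  set a : ℕ → InfinitePlace K → ℝ := fun t v => Real.log (v (η t : K)) - t / T * y v with ha
  set W : ℤ := ⌊3 * H ^ 2 / δ⌋ with hW
  set R : ℤ := ⌊1 / δ⌋ with hR
  have hW0 : 0 ≤ W := Int.floor_nonneg.2 (by positivity)
  have hR0 : 0 ≤ R := Int.floor_nonneg.2 (by positivity)
  set tgt : Finset (Ideal (𝓞 K) × (ι → ℤ) × (InfinitePlace K → ℤ)) :=
    SI ×ˢ Fintype.piFinset (fun _ : ι => Icc (0 : ℤ) R) ×ˢ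
      Fintype.piFinset (fun _ : InfinitePlace K => Icc (-(W + 1)) W) with htgt
  set F : ℕ → Ideal (𝓞 K) × (ι → ℤ) × (InfinitePlace K → ℤ) :=
    fun t => (𝔟 t, fun i => ⌊fr t i / δ⌋, fun v => ⌊a t v / δ⌋) with hFdef
  have hF : ∀ t, F t ∈ tgt := by
    intro t
    rw [htgt, Finset.mem_product, Finset.mem_product, Fintype.mem_piFinset, Fintype.mem_piFinset]
    refine ⟨?_, ?_, ?_⟩
    · rw [hSIdef, Set.Finite.mem_toFinset]
      refine ⟨h𝔟0 t, ?_⟩
      exact Nat.le_floor (hnorm t)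
    · intro i
      simp only [hFdef, Finset.mem_Icc]
      constructor
      · exact Int.floor_nonneg.2 (div_nonneg (hfr0 t i) hδ.le)
      · exact Int.floor_le_floor (div_le_div_of_nonneg_right (hfr1 t i) hδ.le)
    · intro v
      simp only [hFdef, Finset.mem_Icc]
      have h1 := abs_le.1 (hv t v)
      constructor
      · rw [Int.le_floor]
        have h2 : (3 * H ^ 2 / δ) < W + 1 := Int.lt_floor_add_one _
        have h3 : -(3 * H ^ 2 / δ) ≤ a t v / δ := by
          rw [← neg_div]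
          exact div_le_div_of_nonneg_right h1.1 hδ.le
        push_cast
        linarith
      · exact Int.floor_le_floor (div_le_div_of_nonneg_right h1.2 hδ.le)
  have hcardt : (tgt.card : ℝ) ≤ Real.exp (4 * H ^ 6) * (1 / δ) ^ (2 * H) := by
    have h1 : (tgt.card : ℝ) = (SI.card : ℝ) * (((R : ℝ) + 1) ^ (Fintype.card ι) *
        (2 * (W : ℝ) + 2) ^ (Fintype.card (InfinitePlace K))) := by
      rw [htgt, Finset.card_product, Finset.card_product, Fintype.card_piFinset,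
        Fintype.card_piFinset, Finset.prod_const, Finset.prod_const,
        Finset.card_univ, Finset.card_univ, Int.card_Icc, Int.card_Icc]
      have h2 : ((R + 1 - 0).toNat : ℝ) = (R : ℝ) + 1 := by
        rw [toNat_cast _ (by omega)]
        push_cast
        ring
      have h4 : ((W + 1 - -(W + 1)).toNat : ℝ) = 2 * (W : ℝ) + 2 := by
        rw [toNat_cast _ (by omega)]
        push_cast
        ring
      push_cast
      rw [h2, h4]
    rw [h1]
    have hWr : (W : ℝ) ≤ 3 * H ^ 2 / δ := Int.floor_le _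
    have hRr : (R : ℝ) ≤ 1 / δ := Int.floor_le _
    have hd1 : 1 ≤ 1 / δ := by rwa [le_div_iff₀ hδ, one_mul]
    have hW0' : (0 : ℝ) ≤ W := by exact_mod_cast hW0
    have hR0' : (0 : ℝ) ≤ R := by exact_mod_cast hR0
    refine pigs_card SI.card (Fintype.card (InfinitePlace K)) (Module.finrank ℚ K)
      (Fintype.card ι) _ _ δ H hδ hδ1 hH
      hD hι (card_places K) hSIr (by linarith) ?_ (by linarith) ?_
    · calc (R : ℝ) + 1 ≤ 1 / δ + 1 / δ := by linarith
        _ = 2 / δ := by ring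
    · have h6 : 2 ≤ 2 * H ^ 2 / δ := by
        rw [le_div_iff₀ hδ]
        nlinarith
      calc 2 * (W : ℝ) + 2 ≤ 2 * (3 * H ^ 2 / δ) + 2 * H ^ 2 / δ := by linarith
        _ = 8 * H ^ 2 / δ := by ring
  -- pigeonhole
  have hph : ∃ t t' : ℕ, t < t' ∧ t' ≤ tgt.card ∧ F t = F t' := by
    obtain ⟨t, ht, t', ht', hne, heq⟩ :=
      Finset.exists_ne_map_eq_of_card_lt_of_maps_to (s := range (tgt.card + 1)) (t := tgt) (f := F)
        (by rw [Finset.card_range]; omega) (fun t _ => hF t)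
    rw [Finset.mem_range] at ht ht'
    rcases lt_or_gt_of_ne hne with h | h
    · exact ⟨t, t', h, by omega, heq⟩
    · exact ⟨t', t, h, by omega, heq.symm⟩
  obtain ⟨t, t', htt, ht', heq⟩ := hph
  have e1 : 𝔟 t = 𝔟 t' := congrArg Prod.fst heq
  have e2 : ∀ i, ⌊fr t i / δ⌋ = ⌊fr t' i / δ⌋ :=
    fun i => congrFun (congrArg (fun z => z.2.1) heq) i
  have e3 : ∀ v, ⌊a t v / δ⌋ = ⌊a t' v / δ⌋ := fun v => congrFun (congrArg (fun z => z.2.2) heq) v
  have hjj : ∀ i, t * k i / T ≤ t' * k i / T := fun i =>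
    Nat.div_le_div_right (Nat.mul_le_mul_right _ htt.le)
  obtain ⟨ξ, hξ0, hξs, hξv⟩ := pigs_div K ι 𝔠 (𝔟 t) (fun i => t * k i / T)
    (fun i => t' * k i / T) (η t) (η t') hjj
    (hη0 t) (hη0 t') (hspan t) (by rw [e1]; exact hspan t')
  refine ⟨t' - t, fun i => t' * k i / T - t * k i / T, ξ, by omega, ?_, hξ0, hξs, ?_, ?_⟩
  · refine le_trans ?_ hcardt
    exact_mod_cast (by omega : t' - t ≤ tgt.card)
  · intro i
    have h1 := floor_close δ _ _ hδ (e2 i)
    rw [Nat.cast_sub (hjj i), Nat.cast_sub htt.le]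
    have h2 : ((t' * k i / T : ℕ) : ℝ) - ((t * k i / T : ℕ) : ℝ) - ((t' : ℝ) - t) * k i / T =
        fr t i - fr t' i := by
      simp only [hfr]
      ring
    rw [h2]
    exact h1
  · intro v
    have h1 := floor_close δ _ _ hδ (e3 v)
    rw [hξv v, Nat.cast_sub htt.le]
    have h2 : Real.log (v (η t' : K)) - Real.log (v (η t : K)) - ((t' : ℝ) - t) / T * y v =
        a t' v - a t v := by
      simp only [ha]
      ring
    rw [h2, abs_sub_comm]
    exact h1

end Pool.Agent.Work.MP_2738db_nt_S.helper87
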